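import Pool.Agent.L7h12.IW.Mom

set_option autoImplicit false

open Polynomial

namespace Pool.Agent.L7h12.IW

open Pool.Agent.L7h38.IW

/-- a polynomial with the signs of the partial sums, of degree the number of the sign changes -/
theorem sign_poly (l : List ℤ) : ∀ (σ s : ℤ) (n : ℕ), σ = 0 ∨ σ = 1 ∨ σ = -1 →
    ∃ q : ℝ[X], q.natDegree ≤ sc σ s l ∧
      (∀ i < l.length, 0 ≤ ((s + (l.take (i + 1)).sum : ℤ) : ℝ) * q.eval ((n + i : ℕ) : ℝ) ∧
        (s + (l.take (i + 1)).sum ≠ 0 →
          0 < ((s + (l.take (i + 1)).sum : ℤ) : ℝ) * q.eval ((n + i : ℕ) : ℝ))) ∧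
      (∀ x : ℝ, x ≤ (n : ℝ) - 1 → (σ : ℝ) ≠ 0 → 0 < (σ : ℝ) * q.eval x) := by
  induction l with
  | nil =>
    intro σ s n hσ
    refine ⟨C (σ : ℝ), by simp, by simp, ?_⟩
    intro x _ h
    rw [eval_C]
    exact mul_self_pos.mpr h
  | cons a l ih =>
    intro σ s n hσ
    by_cases h0 : s + a = 0
    · obtain ⟨q, h1, h2, h3⟩ := ih σ 0 (n + 1) hσ
      refine ⟨q, ?_, ?_, ?_⟩
      · unfold sc
        rw [if_pos h0]
        exact h1
      · intro i hi
        rcases Nat.eq_zero_or_pos i with rfl | hi0
        · have : s + (List.take (0 + 1) (a :: l)).sum = 0 := by simpa using h0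
          rw [this]
          simp
        · obtain ⟨j, rfl⟩ : ∃ j, i = j + 1 := ⟨i - 1, by omega⟩
          have h4 : s + (List.take (j + 1 + 1) (a :: l)).sum = 0 + (List.take (j + 1) l).sum := by
            rw [List.take_succ_cons, List.sum_cons]
            omega
          rw [h4]
          have h5 := h2 j (by simpa using hi)
          have h6 : n + 1 + j = n + (j + 1) := by omega
          rw [h6] at h5
          exact h5
      · intro x hx
        exact h3 x (by push_cast; linarith)
    · -- the new partial sum is not zero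
      have hs : (s + a).sign = 1 ∨ (s + a).sign = -1 := by
        rcases lt_trichotomy (s + a) 0 with h | h | h
        · right; exact Int.sign_eq_neg_one_of_neg h
        · exact absurd h h0
        · left; exact Int.sign_eq_one_of_pos h
      obtain ⟨q, h1, h2, h3⟩ := ih (s + a).sign (s + a) (n + 1) (by tauto)
      have hsr : ((s + a).sign : ℝ) ≠ 0 := by
        rcases hs with h | h <;> rw [h] <;> norm_num
      have hsabs : ((s + a : ℤ) : ℝ) = ((s + a).sign : ℝ) * |((s + a : ℤ) : ℝ)| := by
        rcases lt_trichotomy (s + a) 0 with h | h | h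
        · rw [Int.sign_eq_neg_one_of_neg h, abs_of_neg (by exact_mod_cast h)]
          push_cast; ring
        · exact absurd h h0
        · rw [Int.sign_eq_one_of_pos h, abs_of_pos (by exact_mod_cast h)]
          push_cast; ring
      have habs : 0 < |((s + a : ℤ) : ℝ)| := abs_pos.mpr (by exact_mod_cast h0)
      have hfirst : ∀ x : ℝ, x ≤ (n : ℝ) → 0 < ((s + a : ℤ) : ℝ) * q.eval x := by
        intro x hx
        rw [hsabs]
        have := h3 x (by push_cast; linarith) hsr
        nlinarith [mul_pos this habs]
      have hrest : ∀ i : ℕ, s + (List.take (i + 1 + 1) (a :: l)).sum = (s + a) + (List.take (i + 1) l).sum := by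
        intro i
        rw [List.take_succ_cons, List.sum_cons]
        ring
      by_cases hsame : (s + a).sign = σ ∨ σ = 0
      · refine ⟨q, ?_, ?_, ?_⟩
        · unfold sc
          rw [if_neg h0, if_pos hsame]
          omega
        · intro i hi
          rcases Nat.eq_zero_or_pos i with rfl | hi0
          · have h4 : s + (List.take (0 + 1) (a :: l)).sum = s + a := by simp
            rw [h4]
            have h5 := hfirst ((n + 0 : ℕ) : ℝ) (by push_cast; linarith)
            exact ⟨h5.le, fun _ => h5⟩
          · obtain ⟨j, rfl⟩ : ∃ j, i = j + 1 := ⟨i - 1, by omega⟩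
            rw [hrest]
            have h5 := h2 j (by simpa using hi)
            have h6 : n + 1 + j = n + (j + 1) := by omega
            rw [h6] at h5
            exact h5
        · intro x hx hσ0
          rcases hsame with h | h
          · rw [← h]
            exact h3 x (by push_cast; linarith) hsr
          · rw [h] at hσ0
            simp at hσ0
      · push Not at hsame
        have hopp : (σ : ℝ) = -((s + a).sign : ℝ) := by
          rcases hσ with h | h | h
          · exact absurd h hsame.2
          · rcases hs with h' | h'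
            · exact absurd (h'.trans h.symm) hsame.1
            · rw [h, h']; norm_num
          · rcases hs with h' | h'
            · rw [h, h']; norm_num
            · exact absurd (h'.trans h.symm) hsame.1
        refine ⟨q * (X - C ((n : ℝ) - 1 / 2)), ?_, ?_, ?_⟩
        · unfold sc
          rw [if_neg h0, if_neg (by tauto)]
          refine (natDegree_mul_le).trans ?_
          rw [natDegree_X_sub_C]
          omega
        · intro i hi
          have hfac : 0 < (X - C ((n : ℝ) - 1 / 2)).eval ((n + i : ℕ) : ℝ) := by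
            simp only [eval_sub, eval_X, eval_C]
            push_cast
            have : (0 : ℝ) ≤ i := Nat.cast_nonneg i
            linarith
          rcases Nat.eq_zero_or_pos i with rfl | hi0
          · have h4 : s + (List.take (0 + 1) (a :: l)).sum = s + a := by simp
            rw [h4]
            have h5 := hfirst ((n + 0 : ℕ) : ℝ) (by push_cast; linarith)
            have h6 : 0 < ((s + a : ℤ) : ℝ) * (q * (X - C ((n : ℝ) - 1 / 2))).eval ((n + 0 : ℕ) : ℝ) := by
              rw [eval_mul, ← mul_assoc]
              exact mul_pos h5 hfac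
            exact ⟨h6.le, fun _ => h6⟩
          · obtain ⟨j, rfl⟩ : ∃ j, i = j + 1 := ⟨i - 1, by omega⟩
            rw [hrest]
            have h5 := h2 j (by simpa using hi)
            have h6 : n + 1 + j = n + (j + 1) := by omega
            rw [h6] at h5
            rw [eval_mul, ← mul_assoc]
            exact ⟨mul_nonneg h5.1 hfac.le, fun h => mul_pos (h5.2 h) hfac⟩
        · intro x hx hσ0
          have h7 := h3 x (by push_cast; linarith) hsr
          rw [hopp, eval_mul]
          simp only [eval_sub, eval_X, eval_C]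
          have h8 : x - ((n : ℝ) - 1 / 2) < 0 := by linarith
          nlinarith [mul_pos h7 (neg_pos.mpr h8)]

theorem sum_map_range (f : ℕ → ℤ) (n : ℕ) :
    ((List.range n).map f).sum = ∑ i ∈ Finset.range n, f i := by
  induction n with
  | zero => simp
  | succ n ih => rw [List.range_succ, List.map_append, List.sum_append, ih, Finset.sum_range_succ]; simp

theorem cl_length (Q : ℤ[X]) : (cl Q).length = Q.natDegree + 1 := by
  unfold cl; simp

theorem cl_take (Q : ℤ[X]) (i : ℕ) (hi : i < Q.natDegree + 1) :
    ((cl Q).take (i + 1)).sum = ∑ j ∈ Finset.range (i + 1), Q.coeff j := by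
  unfold cl
  rw [← List.map_take, List.take_range, sum_map_range]
  congr 2
  omega

theorem cl_sum (Q : ℤ[X]) : (cl Q).sum = Q.eval 1 := by
  unfold cl
  rw [sum_map_range, eval_eq_sum_range]
  simp

/-- partial sums of the coefficients of `(X - 1) R` -/
theorem psum (R : ℤ[X]) (n : ℕ) :
    ∑ j ∈ Finset.range (n + 1), ((X - 1) * R).coeff j = -R.coeff n := by
  induction n with
  | zero => simp [sub_mul]
  | succ n ih =>
    rw [Finset.sum_range_succ, ih, sub_mul, one_mul, coeff_sub, coeff_X_mul]
    ring

theorem s_DESC : S_DESC := by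
  intro m P hm hP
  obtain ⟨n, rfl⟩ : ∃ n, m = n + 1 := ⟨m - 1, by omega⟩
  refine ⟨?_, ?_⟩
  · rw [cl_sum]
    simp
  simp only [Nat.add_sub_cancel]
  by_contra hcon
  push Not at hcon
  set R : ℤ[X] := (X - 1) ^ n * P with hR
  have hQR : (X - 1) ^ (n + 1) * P = (X - 1) * R := by rw [hR]; ring
  rw [hQR] at hcon
  have hX1 : (X - 1 : ℤ[X]) ≠ 0 := by
    have := X_sub_C_ne_zero (1 : ℤ)
    simpa using this
  have hRne : R ≠ 0 := by
    rw [hR]
    exact mul_ne_zero (pow_ne_zero _ hX1) hP
  have hdeg : ((X - 1) * R).natDegree = R.natDegree + 1 := by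
    rw [natDegree_mul hX1 hRne]
    have : (X - 1 : ℤ[X]).natDegree = 1 := by
      have := natDegree_X_sub_C (1 : ℤ)
      simpa using this
    rw [this]
    ring
  obtain ⟨q, h1, h2, -⟩ := sign_poly (cl ((X - 1) * R)) 0 0 0 (Or.inl rfl)
  -- the pairing of `R` with `q` vanishes
  have hpair : ∑ i ∈ Finset.range (R.natDegree + 1), (R.coeff i : ℝ) * q.eval (i : ℝ) = 0 := by
    have h3 : ∀ i : ℕ, (R.coeff i : ℝ) * q.eval (i : ℝ) =
        ∑ k ∈ Finset.range (q.natDegree + 1), q.coeff k * ((R.coeff i : ℝ) * (i : ℝ) ^ k) := by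
      intro i
      rw [eval_eq_sum_range, Finset.mul_sum]
      refine Finset.sum_congr rfl fun k _ => ?_
      ring
    simp only [h3]
    rw [Finset.sum_comm]
    refine Finset.sum_eq_zero fun k hk => ?_
    rw [← Finset.mul_sum]
    have h4 : mo k R = 0 := by
      rw [hR]
      exact mo_low k n (by have := Finset.mem_range.mp hk; omega) P
    rw [mo_eq_sum k R (R.natDegree + 1) (Nat.lt_succ_self _)] at h4
    have h5 : ∑ i ∈ Finset.range (R.natDegree + 1), (R.coeff i : ℝ) * (i : ℝ) ^ k = 0 := by
      exact_mod_cast h4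
    rw [h5, mul_zero]
  have hterm : ∀ i ∈ Finset.range (R.natDegree + 1), (R.coeff i : ℝ) * q.eval (i : ℝ) ≤ 0 ∧
      (R.coeff i ≠ 0 → (R.coeff i : ℝ) * q.eval (i : ℝ) < 0) := by
    intro i hi
    have hi' : i < (cl ((X - 1) * R)).length := by
      rw [cl_length, hdeg]
      have := Finset.mem_range.mp hi
      omega
    have h6 := h2 i hi'
    rw [cl_take _ i (by rw [cl_length] at hi'; exact hi'), psum] at h6
    simp only [zero_add, Int.cast_neg, neg_mul] at h6
    refine ⟨by linarith [h6.1], fun h => ?_⟩
    have := h6.2 (neg_ne_zero.mpr h)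
    linarith
  have hlast := (hterm R.natDegree (Finset.mem_range.mpr (Nat.lt_succ_self _))).2
    (by rw [coeff_natDegree]; exact leadingCoeff_ne_zero.mpr hRne)
  have hlt : ∑ i ∈ Finset.range (R.natDegree + 1), (R.coeff i : ℝ) * q.eval (i : ℝ) < 0 := by
    rw [Finset.sum_range_succ]
    have : ∑ i ∈ Finset.range R.natDegree, (R.coeff i : ℝ) * q.eval (i : ℝ) ≤ 0 :=
      Finset.sum_nonpos fun i hi => (hterm i (Finset.mem_range.mpr (by
        have := Finset.mem_range.mp hi; omega))).1
    linarith
  linarith

end Pool.Agent.L7h12.IW
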