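import Pool.Agent.L7h38.IW.Stm

set_option autoImplicit false

open Polynomial

namespace Pool.Agent.L7h12.IW

open Pool.Agent.L7h38.IW

/-- the operator `X d/dX` -/
noncomputable def th (f : ℤ[X]) : ℤ[X] := X * derivative f

theorem th_add (f g : ℤ[X]) : th (f + g) = th f + th g := by
  unfold th; rw [derivative_add]; ring

theorem th_neg (f : ℤ[X]) : th (-f) = -th f := by
  unfold th; rw [derivative_neg]; ring

theorem th_zero : th 0 = 0 := by
  unfold th; simp

theorem thk_add (k : ℕ) (f g : ℤ[X]) : th^[k] (f + g) = th^[k] f + th^[k] g := by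
  induction k generalizing f g with
  | zero => rfl
  | succ k ih => rw [Function.iterate_succ_apply, Function.iterate_succ_apply,
      Function.iterate_succ_apply, th_add, ih]

theorem thk_neg (k : ℕ) (f : ℤ[X]) : th^[k] (-f) = -th^[k] f := by
  induction k generalizing f with
  | zero => rfl
  | succ k ih => rw [Function.iterate_succ_apply, Function.iterate_succ_apply, th_neg, ih]

theorem thk_zero (k : ℕ) : th^[k] 0 = 0 := by
  induction k with
  | zero => rfl
  | succ k ih => rw [Function.iterate_succ_apply, th_zero, ih]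

/-- the `k`-th moment -/
noncomputable def mo (k : ℕ) (f : ℤ[X]) : ℤ := (th^[k] f).eval 1

theorem mo_add (k : ℕ) (f g : ℤ[X]) : mo k (f + g) = mo k f + mo k g := by
  unfold mo; rw [thk_add, eval_add]

theorem mo_neg (k : ℕ) (f : ℤ[X]) : mo k (-f) = -mo k f := by
  unfold mo; rw [thk_neg, eval_neg]

theorem mo_sub (k : ℕ) (f g : ℤ[X]) : mo k (f - g) = mo k f - mo k g := by
  rw [sub_eq_add_neg, mo_add, mo_neg, sub_eq_add_neg]

theorem mo_zero (k : ℕ) : mo k 0 = 0 := by
  unfold mo; rw [thk_zero, eval_zero]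

theorem mo_sum {ι : Type*} (s : Finset ι) (k : ℕ) (f : ι → ℤ[X]) :
    mo k (∑ i ∈ s, f i) = ∑ i ∈ s, mo k (f i) := by
  classical
  induction s using Finset.induction_on with
  | empty => simp [mo_zero]
  | insert a s ha ih => rw [Finset.sum_insert ha, Finset.sum_insert ha, mo_add, ih]

theorem th_mono (c : ℤ) (e : ℕ) : th (C c * X ^ e) = C (c * e) * X ^ e := by
  unfold th
  rw [derivative_C_mul, derivative_X_pow]
  rcases Nat.eq_zero_or_pos e with rfl | he
  · simp
  · obtain ⟨n, rfl⟩ : ∃ n, e = n + 1 := ⟨e - 1, by omega⟩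
    simp only [Nat.add_sub_cancel, map_mul, pow_succ]
    push_cast
    ring_nf

theorem thk_mono (k : ℕ) (c : ℤ) (e : ℕ) : th^[k] (C c * X ^ e) = C (c * (e : ℤ) ^ k) * X ^ e := by
  induction k generalizing c with
  | zero => simp
  | succ k ih => rw [Function.iterate_succ_apply, th_mono, ih, pow_succ]; ring_nf

theorem mo_mono (k : ℕ) (c : ℤ) (e : ℕ) : mo k (C c * X ^ e) = c * (e : ℤ) ^ k := by
  unfold mo
  rw [thk_mono]
  simp

theorem mo_X (k e : ℕ) : mo k (X ^ e) = (e : ℤ) ^ k := by
  have := mo_mono k 1 e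
  simpa using this

theorem mo_eq_sum (k : ℕ) (f : ℤ[X]) (N : ℕ) (hN : f.natDegree < N) :
    mo k f = ∑ i ∈ Finset.range N, f.coeff i * (i : ℤ) ^ k := by
  conv_lhs => rw [f.as_sum_range' N hN]
  rw [mo_sum]
  refine Finset.sum_congr rfl fun i _ => ?_
  rw [← C_mul_X_pow_eq_monomial, mo_mono]

theorem th_step (j : ℕ) (h : ℤ[X]) :
    ∃ h' : ℤ[X], th ((X - 1) ^ (j + 1) * h) = (X - 1) ^ j * h' ∧
      h'.eval 1 = ((j : ℤ) + 1) * h.eval 1 := by
  refine ⟨X * (C ((j : ℤ) + 1) * h + (X - 1) * derivative h), ?_, ?_⟩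
  · unfold th
    rw [derivative_mul, derivative_pow]
    simp only [derivative_sub, derivative_X, derivative_one, sub_zero, mul_one,
      Nat.add_sub_cancel]
    push_cast
    ring_nf
  · simp

theorem mo_top (j : ℕ) (h : ℤ[X]) :
    mo j ((X - 1) ^ j * h) = (Nat.factorial j : ℤ) * h.eval 1 := by
  induction j generalizing h with
  | zero => simp [mo]
  | succ j ih =>
    obtain ⟨h', h1, h2⟩ := th_step j h
    unfold mo at ih ⊢
    rw [Function.iterate_succ_apply, h1, ih, h2, Nat.factorial_succ]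
    push_cast
    ring

theorem mo_low (k m : ℕ) (hk : k < m) (h : ℤ[X]) : mo k ((X - 1) ^ m * h) = 0 := by
  induction k generalizing m h with
  | zero =>
    obtain ⟨n, rfl⟩ : ∃ n, m = n + 1 := ⟨m - 1, by omega⟩
    simp [mo]
  | succ k ih =>
    obtain ⟨n, rfl⟩ : ∃ n, m = n + 1 := ⟨m - 1, by omega⟩
    obtain ⟨h', h1, -⟩ := th_step n h
    have := ih n (by omega) h'
    unfold mo at this ⊢
    rw [Function.iterate_succ_apply, h1, this]

/-- **Criterion.** -/
theorem dvd_iff (m : ℕ) (f : ℤ[X]) : (X - 1) ^ m ∣ f ↔ ∀ k < m, mo k f = 0 := by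
  constructor
  · rintro ⟨h, rfl⟩ k hk
    exact mo_low k m hk h
  · induction m with
    | zero => intro _; simp
    | succ m ih =>
      intro h
      obtain ⟨g, rfl⟩ := ih fun k hk => h k (by omega)
      have h1 := h m (by omega)
      rw [mo_top] at h1
      have h2 : g.eval 1 = 0 := by
        rcases mul_eq_zero.mp h1 with h3 | h3
        · exact absurd h3 (by exact_mod_cast Nat.factorial_ne_zero m)
        · exact h3
      have h3 : (X - 1 : ℤ[X]) ∣ g := by
        have := dvd_iff_isRoot.mpr (show IsRoot g 1 from h2)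
        simpa using this
      rw [pow_succ]
      exact mul_dvd_mul_left _ h3

end Pool.Agent.L7h12.IW
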