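import Pool.Agent.L7h12.IW.Desc

set_option autoImplicit false

open Polynomial

namespace Pool.Agent.L7h12.IW

open Pool.Agent.L7h38.IW

/-- enumeration of a finite set -/
theorem enum_sum (A : Finset ℕ) (m : ℕ) (hA : A.card = m) :
    ∃ a : Fin m → ℤ, Function.Injective a ∧ (∀ i, ∃ n ∈ A, a i = (n : ℤ)) ∧
      ∀ k : ℕ, ∑ i, a i ^ k = ∑ n ∈ A, (n : ℤ) ^ k := by
  set e : A ≃ Fin m := Finset.equivFinOfCardEq hA
  refine ⟨fun i => (((e.symm i : A) : ℕ) : ℤ), ?_, ?_, ?_⟩
  · intro i j h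
    have h0 : (((e.symm i : A) : ℕ) : ℤ) = (((e.symm j : A) : ℕ) : ℤ) := h
    have h1 : ((e.symm i : A) : ℕ) = ((e.symm j : A) : ℕ) := Nat.cast_injective h0
    exact e.symm.injective (Subtype.ext h1)
  · intro i
    exact ⟨_, (e.symm i).2, rfl⟩
  · intro k
    rw [← Finset.sum_coe_sort A (fun n => ((n : ℕ) : ℤ) ^ k)]
    exact Equiv.sum_comp e.symm (fun x : A => (((x : A) : ℕ) : ℤ) ^ k)

theorem s_PTE1 (hL : S_L1) (m : ℕ) (hm : 1 ≤ m) (P : ℤ[X]) (hP : P.Monic)
    (hS : ∑ i ∈ Finset.range (((X - 1) ^ m * P).natDegree + 1), ((X - 1) ^ m * P).coeff i ^ 2 =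
      2 * (m : ℤ)) : IdealPTE m := by
  classical
  have hP0 : P ≠ 0 := hP.ne_zero
  have hX1 : (X - 1 : ℤ[X]) ≠ 0 := by
    have := X_sub_C_ne_zero (1 : ℤ)
    simpa using this
  obtain ⟨h1, h2⟩ := s_DESC m P hm hP0
  have hmo : ∀ k < m, mo k ((X - 1) ^ m * P) = 0 := fun k hk => mo_low k m hk P
  set Q : ℤ[X] := (X - 1) ^ m * P with hQ
  have hQ0 : Q ≠ 0 := mul_ne_zero (pow_ne_zero _ hX1) hP0
  set N : ℕ := Q.natDegree + 1 with hN
  have hex : ∃ q ∈ cl Q, q ≠ 0 := by
    refine ⟨Q.coeff Q.natDegree, ?_, ?_⟩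
    · unfold cl
      exact List.mem_map.mpr ⟨Q.natDegree, List.mem_range.mpr (Nat.lt_succ_self _), rfl⟩
    · rw [coeff_natDegree]
      exact leadingCoeff_ne_zero.mpr hQ0
  have h3 := hL (cl Q) h1 hex
  have h4 : ((cl Q).map fun q => |q|).sum = ∑ i ∈ Finset.range N, |Q.coeff i| := by
    unfold cl
    rw [List.map_map]
    exact sum_map_range (fun i => |Q.coeff i|) N
  rw [h4] at h3
  have h5 : 2 * (m : ℤ) ≤ ∑ i ∈ Finset.range N, |Q.coeff i| := by
    have : (m : ℤ) - 1 ≤ (sc 0 0 (cl Q) : ℤ) := by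
      have : ((m - 1 : ℕ) : ℤ) ≤ (sc 0 0 (cl Q) : ℤ) := by exact_mod_cast h2
      rw [Nat.cast_sub hm] at this
      simpa using this
    linarith
  -- each coefficient is `-1`, `0` or `1`
  have habs : ∀ q : ℤ, |q| ≤ q ^ 2 := by
    intro q
    rcases eq_or_ne q 0 with rfl | hq
    · simp
    · have : 1 ≤ |q| := Int.one_le_abs hq
      nlinarith [sq_abs q, abs_nonneg q]
  have heq : ∑ i ∈ Finset.range N, |Q.coeff i| = ∑ i ∈ Finset.range N, Q.coeff i ^ 2 := by
    refine le_antisymm (Finset.sum_le_sum fun i _ => habs _) ?_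
    rw [hS]
    exact h5
  have heach : ∀ i ∈ Finset.range N, |Q.coeff i| = Q.coeff i ^ 2 :=
    (Finset.sum_eq_sum_iff_of_le (fun i _ => habs (Q.coeff i))).mp heq
  have hval : ∀ i ∈ Finset.range N, Q.coeff i = 0 ∨ Q.coeff i = 1 ∨ Q.coeff i = -1 := by
    intro i hi
    have h6 := heach i hi
    rcases eq_or_ne (Q.coeff i) 0 with h | h
    · exact Or.inl h
    · right
      have h7 : |Q.coeff i| = 1 := by
        have h8 : 0 < |Q.coeff i| := abs_pos.mpr h
        rw [← sq_abs] at h6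
        nlinarith
      rcases abs_eq (by norm_num : (0 : ℤ) ≤ 1) |>.mp h7 with h9 | h9
      · exact Or.inl h9
      · exact Or.inr h9
  set A : Finset ℕ := (Finset.range N).filter fun i => Q.coeff i = 1 with hA
  set B : Finset ℕ := (Finset.range N).filter fun i => Q.coeff i = -1 with hB
  -- sums through `A` and `B`
  have hsum : ∀ f : ℕ → ℤ, ∑ i ∈ Finset.range N, Q.coeff i * f i =
      ∑ n ∈ A, f n - ∑ n ∈ B, f n := by
    intro f
    rw [hA, hB, Finset.sum_filter, Finset.sum_filter, ← Finset.sum_sub_distrib]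
    refine Finset.sum_congr rfl fun i hi => ?_
    rcases hval i hi with h | h | h <;> rw [h] <;> norm_num
  have hsumsq : ∑ i ∈ Finset.range N, Q.coeff i ^ 2 = (A.card : ℤ) + B.card := by
    rw [Finset.card_eq_sum_ones, Finset.card_eq_sum_ones, hA, hB]
    push_cast
    rw [Finset.sum_filter, Finset.sum_filter, ← Finset.sum_add_distrib]
    refine Finset.sum_congr rfl fun i hi => ?_
    rcases hval i hi with h | h | h <;> rw [h] <;> norm_num
  have hmoAB : ∀ k < m, ∑ n ∈ A, (n : ℤ) ^ k = ∑ n ∈ B, (n : ℤ) ^ k := by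
    intro k hk
    have h6 := hmo k hk
    rw [mo_eq_sum k Q N (Nat.lt_succ_self _), hsum] at h6
    linarith
  have hcard0 : (A.card : ℤ) = B.card := by
    have := hmoAB 0 (by omega)
    simpa using this
  have hAc : A.card = m := by
    have : (A.card : ℤ) = m := by linarith [hsumsq, hS]
    exact_mod_cast this
  have hBc : B.card = m := by
    have : (B.card : ℤ) = m := by linarith [hsumsq, hS]
    exact_mod_cast this
  obtain ⟨a, ha1, ha2, ha3⟩ := enum_sum A m hAc
  obtain ⟨b, hb1, hb2, hb3⟩ := enum_sum B m hBc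
  refine ⟨a, b, ha1, hb1, ?_, ?_⟩
  · intro i j h
    obtain ⟨n, hn, h6⟩ := ha2 i
    obtain ⟨n', hn', h7⟩ := hb2 j
    have h8 : n = n' := by
      have : (n : ℤ) = n' := by rw [← h6, ← h7, h]
      exact_mod_cast this
    subst h8
    have h9 := (Finset.mem_filter.mp hn).2
    have h10 := (Finset.mem_filter.mp hn').2
    rw [h9] at h10
    norm_num at h10
  · intro k hk
    rw [ha3, hb3]
    exact hmoAB k hk

/-- translation of an ideal solution -/
theorem translate {m : ℕ} (a b : Fin m → ℤ) (h : ∀ k < m, ∑ i, a i ^ k = ∑ i, b i ^ k) (N : ℤ) :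
    ∀ k < m, ∑ i, (a i + N) ^ k = ∑ i, (b i + N) ^ k := by
  intro k hk
  have e : ∀ c : Fin m → ℤ, ∑ i, (c i + N) ^ k =
      ∑ j ∈ Finset.range (k + 1), N ^ (k - j) * (k.choose j : ℤ) * ∑ i, c i ^ j := by
    intro c
    simp only [add_pow]
    rw [Finset.sum_comm]
    refine Finset.sum_congr rfl fun j _ => ?_
    rw [Finset.mul_sum]
    refine Finset.sum_congr rfl fun i _ => ?_
    ring
  rw [e, e]
  refine Finset.sum_congr rfl fun j hj => ?_
  rw [h j (by have := Finset.mem_range.mp hj; omega)]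

theorem s_PTE2 (m : ℕ) (hm : 1 ≤ m) (h : IdealPTE m) : ∃ P : ℤ[X], P.Monic ∧
    ∑ i ∈ Finset.range (((X - 1) ^ m * P).natDegree + 1), ((X - 1) ^ m * P).coeff i ^ 2 =
      2 * (m : ℤ) := by
  classical
  obtain ⟨a, b, ha, hb, hab, hk⟩ := h
  set N : ℤ := (∑ i, |a i|) + ∑ i, |b i| with hN
  have haN : ∀ i, 0 ≤ a i + N := by
    intro i
    have h1 : |a i| ≤ ∑ i, |a i| :=
      Finset.single_le_sum (f := fun i => |a i|) (fun j _ => abs_nonneg (a j)) (Finset.mem_univ i)
    have h2 : 0 ≤ ∑ i, |b i| := Finset.sum_nonneg fun j _ => abs_nonneg _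
    have h3 := neg_abs_le (a i)
    linarith
  have hbN : ∀ i, 0 ≤ b i + N := by
    intro i
    have h1 : |b i| ≤ ∑ i, |b i| :=
      Finset.single_le_sum (f := fun i => |b i|) (fun j _ => abs_nonneg (b j)) (Finset.mem_univ i)
    have h2 : 0 ≤ ∑ i, |a i| := Finset.sum_nonneg fun j _ => abs_nonneg _
    have h3 := neg_abs_le (b i)
    linarith
  set a' : Fin m → ℕ := fun i => (a i + N).toNat with ha'
  set b' : Fin m → ℕ := fun i => (b i + N).toNat with hb'
  have ea : ∀ i, ((a' i : ℕ) : ℤ) = a i + N := fun i => Int.toNat_of_nonneg (haN i)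
  have eb : ∀ i, ((b' i : ℕ) : ℤ) = b i + N := fun i => Int.toNat_of_nonneg (hbN i)
  have ia : Function.Injective a' := by
    intro i j hij
    apply ha
    have : ((a' i : ℕ) : ℤ) = ((a' j : ℕ) : ℤ) := by rw [hij]
    rw [ea, ea] at this
    linarith
  have ib : Function.Injective b' := by
    intro i j hij
    apply hb
    have : ((b' i : ℕ) : ℤ) = ((b' j : ℕ) : ℤ) := by rw [hij]
    rw [eb, eb] at this
    linarith
  have iab : ∀ i j, a' i ≠ b' j := by
    intro i j hij
    apply hab i j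
    have : ((a' i : ℕ) : ℤ) = ((b' j : ℕ) : ℤ) := by rw [hij]
    rw [ea, eb] at this
    linarith
  set A : Finset ℕ := Finset.univ.image a' with hA
  set B : Finset ℕ := Finset.univ.image b' with hB
  have hAc : A.card = m := by rw [hA, Finset.card_image_of_injective _ ia]; simp
  have hBc : B.card = m := by rw [hB, Finset.card_image_of_injective _ ib]; simp
  have hAB : ∀ n, n ∈ A → n ∉ B := by
    intro n hn hn'
    obtain ⟨i, _, rfl⟩ := Finset.mem_image.mp hn
    obtain ⟨j, _, hj⟩ := Finset.mem_image.mp hn'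
    exact iab i j hj.symm
  set Q : ℤ[X] := (∑ n ∈ A, X ^ n) - ∑ n ∈ B, X ^ n with hQ
  have hcoeff : ∀ n, Q.coeff n = (if n ∈ A then 1 else 0) - (if n ∈ B then 1 else 0) := by
    intro n
    rw [hQ, coeff_sub, finsetSum_coeff, finsetSum_coeff]
    simp only [coeff_X_pow, Finset.sum_ite_eq]
  have hmo : ∀ k < m, mo k Q = 0 := by
    intro k hkm
    rw [hQ, mo_sub, mo_sum, mo_sum]
    simp only [mo_X]
    rw [hA, hB, Finset.sum_image (fun _ _ _ _ h => ia h), Finset.sum_image (fun _ _ _ _ h => ib h)]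
    simp only [ea, eb]
    rw [translate a b hk N k hkm, sub_self]
  obtain ⟨P, hP⟩ := (dvd_iff m Q).mpr hmo
  have hX1 : (X - 1 : ℤ[X]).Monic := by
    have := monic_X_sub_C (1 : ℤ)
    simpa using this
  have hQne : Q ≠ 0 := by
    intro h0
    have h1 := hcoeff (a' ⟨0, by omega⟩)
    have h2 : a' ⟨0, by omega⟩ ∈ A := Finset.mem_image_of_mem _ (Finset.mem_univ _)
    rw [if_pos h2, if_neg (hAB _ h2), h0] at h1
    simp at h1
  have hlead : Q.leadingCoeff = P.leadingCoeff := by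
    rw [hP, leadingCoeff_mul, (hX1.pow m).leadingCoeff, one_mul]
  have hsq : ∑ i ∈ Finset.range (Q.natDegree + 1), Q.coeff i ^ 2 = 2 * (m : ℤ) := by
    have hsub : ∀ n, n ∈ A ∨ n ∈ B → n ∈ Finset.range (Q.natDegree + 1) := by
      intro n hn
      rw [Finset.mem_range]
      have : Q.coeff n ≠ 0 := by
        rw [hcoeff]
        rcases hn with h1 | h1
        · rw [if_pos h1, if_neg (hAB _ h1)]; norm_num
        · have h2 : n ∉ A := fun h2 => hAB n h2 h1
          rw [if_neg h2, if_pos h1]; norm_num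
      have := le_natDegree_of_ne_zero this
      omega
    have h1 : ∀ i, Q.coeff i ^ 2 = (if i ∈ A then 1 else 0) + (if i ∈ B then (1 : ℤ) else 0) := by
      intro i
      rw [hcoeff]
      by_cases h2 : i ∈ A
      · rw [if_pos h2, if_neg (hAB _ h2)]; norm_num
      · rw [if_neg h2]
        by_cases h3 : i ∈ B
        · rw [if_pos h3]; norm_num
        · rw [if_neg h3]; norm_num
    simp only [h1]
    rw [Finset.sum_add_distrib, ← Finset.sum_filter, ← Finset.sum_filter]
    have h2 : (Finset.range (Q.natDegree + 1)).filter (fun i => i ∈ A) = A := by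
      ext n
      rw [Finset.mem_filter]
      exact ⟨fun h => h.2, fun h => ⟨hsub n (Or.inl h), h⟩⟩
    have h3 : (Finset.range (Q.natDegree + 1)).filter (fun i => i ∈ B) = B := by
      ext n
      rw [Finset.mem_filter]
      exact ⟨fun h => h.2, fun h => ⟨hsub n (Or.inr h), h⟩⟩
    rw [h2, h3]
    simp only [Finset.sum_const, hAc, hBc, nsmul_eq_mul, mul_one]
    ring
  have hl : Q.leadingCoeff = 1 ∨ Q.leadingCoeff = -1 := by
    have h1 : Q.leadingCoeff ≠ 0 := leadingCoeff_ne_zero.mpr hQne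
    unfold leadingCoeff at h1 ⊢
    rw [hcoeff] at h1 ⊢
    by_cases h2 : Q.natDegree ∈ A
    · rw [if_pos h2, if_neg (hAB _ h2)]; left; norm_num
    · rw [if_neg h2] at h1 ⊢
      by_cases h3 : Q.natDegree ∈ B
      · rw [if_pos h3]; right; norm_num
      · rw [if_neg h3] at h1; norm_num at h1
  rcases hl with h1 | h1
  · refine ⟨P, ?_, ?_⟩
    · rw [hlead] at h1; exact h1
    · rw [← hP]; exact hsq
  · refine ⟨-P, ?_, ?_⟩
    · show (-P).leadingCoeff = 1
      rw [leadingCoeff_neg, ← hlead, h1]; norm_num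
    · have h2 : (X - 1) ^ m * -P = -Q := by rw [hP]; ring
      rw [h2, natDegree_neg]
      simp only [coeff_neg, neg_sq]
      exact hsq

theorem s_PTE (hL : S_L1) : S_PTE := fun m hm =>
  ⟨fun h => s_PTE2 m hm h, fun ⟨P, h1, h2⟩ => s_PTE1 hL m hm P h1 h2⟩

end Pool.Agent.L7h12.IW
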