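import Pool.Agent.L7h12.IW.Mom

set_option autoImplicit false

open Polynomial

namespace Pool.Agent.L7h12.IW

open Pool.Agent.L7h38.IW

theorem mo_sign (k i : ℕ) (f : ℤ[X]) : mo k ((-1) ^ i * f) = (-1) ^ i * mo k f := by
  rcases neg_one_pow_eq_or ℤ[X] i with h | h
  · rcases Nat.even_or_odd i with hi | hi
    · rw [hi.neg_one_pow, hi.neg_one_pow, one_mul, one_mul]
    · rw [hi.neg_one_pow, hi.neg_one_pow, neg_one_mul, neg_one_mul, mo_neg]
  · rcases Nat.even_or_odd i with hi | hi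
    · rw [hi.neg_one_pow, hi.neg_one_pow, one_mul, one_mul]
    · rw [hi.neg_one_pow, hi.neg_one_pow, neg_one_mul, neg_one_mul, mo_neg]

theorem mo_TQ (k m : ℕ) (p : ℕ → ℕ) : mo k (TQ m p) = (p 0 : ℤ) ^ k +
    (∑ i ∈ Finset.Ico 1 m, (-1) ^ i * ((p i : ℤ) ^ k + ((p i : ℤ) + 1) ^ k)) +
      (-1) ^ m * (p m : ℤ) ^ k := by
  unfold TQ
  rw [mo_add, mo_add, mo_sum, mo_X, mo_sign, mo_X]
  congr 2
  refine Finset.sum_congr rfl fun i _ => ?_
  rw [mo_sign, mo_add, mo_X, mo_X]
  push_cast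
  rfl

theorem s_T1 : S_T1 := by
  intro K
  refine ⟨fun i => i * K, ?_, ?_⟩
  · intro i _
    show i * K + K ≤ (i + 1) * K
    rw [Nat.add_mul, Nat.one_mul]
  · rw [dvd_iff]
    intro k hk
    rw [mo_TQ]
    interval_cases k
    simp

theorem s_T2 : S_T2 := by
  intro K
  refine ⟨fun i => if i = 0 then 0 else if i = 1 then K else 2 * K + 1, ?_, ?_⟩
  · intro i hi
    interval_cases i
    · simp
    · simp; omega
  · rw [dvd_iff]
    intro k hk
    rw [mo_TQ]
    interval_cases k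
    · simp
    · simp
      ring

theorem s_T3 : S_T3 := by
  intro K
  refine ⟨fun i => if i = 0 then 0 else if i = 1 then K else if i = 2 then 3 * K + 1
    else 4 * K + 2, ?_, ?_⟩
  · intro i hi
    interval_cases i
    · simp
    · simp; omega
    · simp; omega
  · rw [dvd_iff]
    intro k hk
    rw [mo_TQ]
    interval_cases k
    · simp [Finset.sum_Ico_succ_top]
    · simp [Finset.sum_Ico_succ_top]
      ring
    · simp [Finset.sum_Ico_succ_top]
      ring

theorem pell (n : ℕ) : ∃ b r : ℕ, n ≤ b ∧ n ≤ r ∧ (b + r) ^ 2 + (b + r) = 2 * b ^ 2 := by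
  -- `α = b + r`, `β = b`
  suffices h : ∃ b r : ℕ, 1 ≤ b ∧ n ≤ b ∧ n ≤ r ∧ (b + r) ^ 2 + (b + r) = 2 * b ^ 2 by
    obtain ⟨b, r, -, h1, h2, h3⟩ := h
    exact ⟨b, r, h1, h2, h3⟩
  induction n with
  | zero => exact ⟨1, 0, le_refl _, by omega, by omega, by norm_num⟩
  | succ n ih =>
    obtain ⟨b, r, h0, h1, h2, h3⟩ := ih
    -- α' = 3α + 4β + 1, β' = 2α + 3β + 1, r' = α + β
    refine ⟨2 * (b + r) + 3 * b + 1, b + r + b, by omega, by omega, by omega, ?_⟩
    zify at h3 ⊢
    linear_combination h3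

theorem s_T4 : S_T4 := by
  intro K
  obtain ⟨b, r, h1, h2, h3⟩ := pell K
  refine ⟨fun i => if i = 0 then 0 else if i = 1 then r else if i = 2 then b + r
    else if i = 3 then b + r + b else 2 * (b + r) + 1, ?_, ?_⟩
  · intro i hi
    interval_cases i
    · simp; omega
    · simp; omega
    · simp; omega
    · simp; omega
  · rw [dvd_iff]
    intro k hk
    rw [mo_TQ]
    zify at h3
    interval_cases k
    · simp [Finset.sum_Ico_succ_top]
    · simp [Finset.sum_Ico_succ_top]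
      ring
    · simp [Finset.sum_Ico_succ_top]
      linear_combination 2 * h3
    · simp [Finset.sum_Ico_succ_top]
      linear_combination (6 * ((b : ℤ) + r) + 3) * h3

theorem pell5 (n : ℕ) : ∃ g r : ℕ, n ≤ g ∧ n ≤ r ∧
    ((4 * g + 2 * r + 3 : ℤ)) ^ 2 - 3 * (4 * g + 2 * r + 3) * (2 * g + 1) + (2 * g + 1) ^ 2 = 1 := by
  induction n with
  | zero => exact ⟨0, 0, le_refl _, le_refl _, by norm_num⟩
  | succ n ih =>
    obtain ⟨g, r, h1, h2, h3⟩ := ih
    refine ⟨13 * g + 8 * r + 10, 8 * g + 5 * r + 6, by omega, by omega, ?_⟩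
    push_cast
    linear_combination h3

theorem s_T5 : S_T5 := by
  intro K
  obtain ⟨g, r, h1, h2, h3⟩ := pell5 K
  refine ⟨fun i => if i = 0 then 0 else if i = 1 then r else if i = 2 then g + 2 * r + 1
    else if i = 3 then 3 * g + 2 * r + 2 else if i = 4 then 4 * g + 3 * r + 3
    else 4 * g + 4 * r + 4, ?_, ?_⟩
  · intro i hi
    interval_cases i
    · simp; omega
    · simp; omega
    · simp; omega
    · simp; omega
    · simp; omega
  · rw [dvd_iff]
    intro k hk
    rw [mo_TQ]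
    interval_cases k
    · simp [Finset.sum_Ico_succ_top]
    · simp [Finset.sum_Ico_succ_top]
      ring
    · simp [Finset.sum_Ico_succ_top]
      ring
    · simp [Finset.sum_Ico_succ_top]
      linear_combination (-3 * ((g : ℤ) + r + 1)) * h3
    · simp [Finset.sum_Ico_succ_top]
      linear_combination (-24 * ((g : ℤ) + r + 1) ^ 2) * h3

end Pool.Agent.L7h12.IW
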