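import Pool.Agent.L7h38.IW.Stm

set_option autoImplicit false

namespace Pool.Agent.L7h12.IW

open Pool.Agent.L7h38.IW

theorem s_VAL : S_VAL := by
  refine ⟨⟨![4, -4, 9, -9, 13, -13], ![1, -1, 11, -11, 12, -12], ?_, ?_, ?_, ?_⟩,
    ⟨![0, 18, 27, 58, 64, 89, 101], ![1, 13, 38, 44, 75, 84, 102], ?_, ?_, ?_, ?_⟩,
    ⟨![2, -2, 16, -16, 21, -21, 25, -25], ![5, -5, 14, -14, 23, -23, 24, -24], ?_, ?_, ?_, ?_⟩,
    ⟨![0, 24, 30, 83, 86, 133, 157, 181, 197], ![1, 17, 41, 65, 112, 115, 168, 174, 198],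
      ?_, ?_, ?_, ?_⟩,
    ⟨![99, -99, 100, -100, 188, -188, 301, -301, 313, -313],
      ![71, -71, 131, -131, 180, -180, 307, -307, 308, -308], ?_, ?_, ?_, ?_⟩,
    ⟨![22, -22, 61, -61, 86, -86, 127, -127, 140, -140, 151, -151],
      ![35, -35, 47, -47, 94, -94, 121, -121, 146, -146, 148, -148], ?_, ?_, ?_, ?_⟩⟩ <;>
    decide +kernel

end Pool.Agent.L7h12.IW
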